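import Pool.Agent.Y133.BK.Rank

/-!
# MP_787500_nt: a zero-one law for Abel–Jacobi maps onto Selmer groups on the powers of a variety

Let `X` be a smooth projective variety over a field (for example a number field `K`) such that
homological and numerical equivalence agree on the powers of `X` (for example an abelian variety).
Consider the `p`-adic Abel–Jacobi maps with coefficients `ℚ_p`, from the homologically trivial cycles
on `X^n` to the sum of the groups `H¹(K, H^(2i-1)(X^n, ℚ_p(i)))`, and the Bloch–Kato Selmer groups
`H¹_f`. Let `d(n)` be the dimension of the kernel of this map plus the dimension of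
`(S + T) / (S ∩ T)` for its image `T` and the Selmer group `S` (so `d(n) = 0` if and only if the map
is injective with image the Selmer group), possibly infinite, and let `a(n)` be the dimension of the
space of cycles on `X^n` modulo numerical equivalence. Then `d(n) / a(n)` converges to some
`N ∈ {0, 1, 2, …, ∞}`, and `N = 0` if and only if for all powers of `X` the Abel–Jacobi map is
injective with image the Selmer group. If this fails for one motive `M = (X^m, e)` whose
endomorphisms modulo numerical equivalence are the rational numbers, then `N` is at least the
dimension of the cohomology of `M`: so `d(n)` is asymptotically at least `dim H(M)` times the rank of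
the group of cycles on `X^n` modulo numerical equivalence.
-/

open CategoryTheory AlgebraicGeometry Filter Topology

universe u v w x

namespace Pool.Agent.Results.MP_787500_nt.BlochKatoIndex

open Pool.Agent.H914 Pool.Agent.H914.VarClass Pool.Agent.H914.VarClass.Obj
  Pool.Agent.H914.WeilCohomology Pool.Agent.W492.BB Pool.Agent.TH133 Pool.Agent.Y133.Chow
  Pool.Agent.Y133.BK Pool.Agent.Y129

variable {k : Type u} [Field k] {𝒱 : VarClass k} {ops : CycleOps 𝒱}

theorem result {W : WeilCohomology.{u, v} ops} {C : TheoryData.{u, w, 0} 𝒱 ℚ} [IsChowProj C]
    {c : ClassMap W C} (σ : SelmerTheory.{u, v, w, x} c) (X : 𝒱.Obj) [Nontrivial (W.H X)]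
    (h : HomEqNum c X) :
    ∃ N : ℕ∞,
      HasRatio (fun n => defect σ (pw X n)) (fun n => cycDim c (pw X n)) N ∧
      (N = 0 ↔ ∀ n, BlochKato σ (pw X n)) ∧
      ∀ (m : ℕ) (e : C.A ((pw X m).prod (pw X m))), ScalarEnd c e →
        BlochKatoFor σ e ∨ (motiveDim c e : ℕ∞) ≤ N :=
  bk_index_motive σ h

end Pool.Agent.Results.MP_787500_nt.BlochKatoIndex
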