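import Mathlib
import Pool.Agent.Y667.QK.Main0
import Pool.Agent.Y667.OG.Rank
import Pool.Agent.Y667.BK.Fin
import Pool.Agent.Y667.BKK.Main
import Pool.Agent.Y388.QK.Deg
import Pool.Agent.Y388.QK.Flip
import Pool.Agent.W672.FK.Lowf
import Pool.Agent.W307.RT.Tors

/-!
# Abel–Jacobi maps onto Bloch–Kato Selmer groups over multiquadratic fields of every degree

All elliptic curves `E` over `ℚ` with full rational 2-torsion, ordered by the naive height or by the
absolute value of the minimal discriminant. For every `m` and `N` there is a finite list of fields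
`K = ℚ(√(q_1 q'_1), ..., √(q_m q'_m))` of degree `2 ^ m`, all the primes `q_i`, `q'_i` larger than
`N`, and `δ > 0` such that for all large `Z` for some field `K` of the list at least a proportion `δ`
of the curves of size at most `Z` has `E(K) ⊗ ℚ₂ = 0` and Bloch–Kato Selmer group
`H¹_f(K, V₂ E) = 0`, so that the 2-adic Abel–Jacobi (Kummer) map over `K` is an isomorphism. One field
of the list has this property for arbitrarily large `Z`. For `m = 0` the field is `ℚ`.
-/

namespace Pool.Agent.Results.MP_787500_nt.BlochKatoMultiquadratic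

open Finset Filter Topology

open Pool.Agent.Y667.BKK (H1f)

/-- the curve `y² = x³ + A x + B` over `ℚ` -/
def E (A B : ℤ) : WeierstrassCurve ℚ := ⟨0, 0, 0, (A : ℚ), (B : ℚ)⟩

/-- the absolute value of the minimal discriminant of an elliptic curve `W` over `ℚ`: the smallest
absolute value of the discriminant of a Weierstrass equation `V` with integer coefficients which is
isomorphic to `W` over `ℚ` -/
noncomputable def minDisc (W : WeierstrassCurve ℚ) : ℕ :=
  sInf {n : ℕ | ∃ (V : WeierstrassCurve ℤ) (C : WeierstrassCurve.VariableChange ℚ),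
    C • W = V.map (Int.castRingHom ℚ) ∧ n = V.Δ.natAbs}

/-- the naive height of `y² = x³ + A x + B` is at most `Z` -/
def HeightLe (c : ℤ × ℤ) (Z : ℕ) : Prop := 4 * |c.1| ^ 3 ≤ Z ∧ 27 * c.2 ^ 2 ≤ Z

/-- the minimal discriminant of `y² = x³ + A x + B` is at most `Z` in absolute value -/
def DiscLe (c : ℤ × ℤ) (Z : ℕ) : Prop := minDisc (E c.1 c.2) ≤ Z

/-- The pairs `(A, B)` of integers such that `4 A³ + 27 B² ≠ 0`, there is no prime `p` with
`p⁴ ∣ A` and `p⁶ ∣ B`, `Z/2 x Z/2` embeds in the group of the rational points of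
`y² = x³ + A x + B`, and the size (`HeightLe` or `DiscLe`) is at most `Z`. Every elliptic curve over
`ℚ` with full rational 2-torsion is isomorphic to `E A B` for exactly one pair with the first three
properties. -/
def Fam (I : ℤ × ℤ → ℕ → Prop) (Z : ℕ) : Set (ℤ × ℤ) :=
  {c : ℤ × ℤ | 4 * c.1 ^ 3 + 27 * c.2 ^ 2 ≠ 0 ∧
    (∀ p : ℕ, p.Prime → ¬ ((p : ℤ) ^ 4 ∣ c.1 ∧ (p : ℤ) ^ 6 ∣ c.2)) ∧
    (∃ f : ZMod 2 × ZMod 2 →+ (E c.1 c.2).toAffine.Point, Function.Injective f) ∧ I c Z}

/-- the proportion of the curves of `S` among the curves of size at most `Z` -/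
noncomputable def proportion (I : ℤ × ℤ → ℕ → Prop) (S : Set (ℤ × ℤ)) (Z : ℕ) : ℝ :=
  ((Fam I Z ∩ S).ncard : ℝ) / (Fam I Z).ncard

lemma FamH_eq (H : ℕ) : Fam HeightLe H = (Pool.Agent.W307.RT.Cv 2 H : Set (ℤ × ℤ)) := by
  classical
  ext c
  have h : Pool.Agent.W307.RT.HasT 2 (Pool.Agent.W307.RT.Sh c.1 c.2) ↔
    ∃ f : ZMod 2 × ZMod 2 →+ (E c.1 c.2).toAffine.Point, Function.Injective f :=
    Pool.Agent.W307.RT.tors_iff
  unfold Fam HeightLe Pool.Agent.W307.RT.Cv
  rw [Set.mem_ofPred_eq, mem_coe, mem_filter, h, mem_product, mem_Icc, mem_Icc]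
  constructor
  · rintro ⟨h1, h2, h3, h4, h5⟩
    refine ⟨⟨?_, ?_⟩, h1, h4, h5, h2, h3⟩
    · rw [← abs_le]
      have h0 := abs_nonneg c.1
      rcases eq_or_lt_of_le h0 with h6 | h6
      · rw [← h6]; positivity
      · have : 1 ≤ |c.1| := h6
        nlinarith [mul_nonneg h0 h0, mul_self_nonneg (|c.1| - 1)]
    · rw [← abs_le]
      have h0 := abs_nonneg c.2
      rw [← sq_abs] at h5
      rcases eq_or_lt_of_le h0 with h6 | h6
      · rw [← h6]; positivity
      · have : 1 ≤ |c.2| := h6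
        nlinarith
  · rintro ⟨-, h1, h4, h5, h2, h3⟩
    exact ⟨h1, h2, h3, h4, h5⟩

lemma FamD_eq (D : ℕ) : Fam DiscLe D = (Pool.Agent.TH344.DS.Dv D : Set (ℤ × ℤ)) := by
  classical
  have h0 : Fam DiscLe D = Pool.Agent.W307.RS.DvS 2 D := by
    ext c
    have h : Pool.Agent.W307.RT.HasT 2 (Pool.Agent.W307.RT.Sh c.1 c.2) ↔
        ∃ f : ZMod 2 × ZMod 2 →+ (E c.1 c.2).toAffine.Point, Function.Injective f :=
      Pool.Agent.W307.RT.tors_iff
    unfold Fam Pool.Agent.W307.RS.DvS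
    rw [Set.mem_ofPred_eq, Set.mem_ofPred_eq, h]
    exact Iff.rfl
  rw [h0]
  unfold Pool.Agent.TH344.DS.Dv
  rw [dif_pos (Pool.Agent.TH344.DS.excd.1 D), Set.Finite.coe_toFinset]

/-- The number of these curves tends to infinity (ordering by height). -/
lemma tendstoH : Tendsto (fun Z : ℕ => (Fam HeightLe Z).ncard) atTop atTop := by
  simp only [FamH_eq, Set.ncard_coe_finset]
  exact Pool.Agent.W307.RT.tendsto_of_low Pool.Agent.W672.FK.lowf

/-- The number of these curves tends to infinity (ordering by the minimal discriminant). -/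
lemma tendstoD : Tendsto (fun Z : ℕ => (Fam DiscLe Z).ncard) atTop atTop := by
  have h1 := Pool.Agent.W307.RT.tendsto_of_low Pool.Agent.W672.FK.lowf
  have h2 : Tendsto (fun D : ℕ => (Pool.Agent.W307.RT.Cv 2 (D / 32)).card) atTop atTop :=
    h1.comp (Nat.tendsto_div_const_atTop (by norm_num))
  obtain ⟨hD1, hD2, hD3⟩ := Pool.Agent.TH344.DS.excd
  refine tendsto_atTop_mono (fun D => ?_) h2
  have h3 : (Pool.Agent.TH344.DS.Dv D : Set (ℤ × ℤ)) = Pool.Agent.W307.RS.DvS 2 D := by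
    unfold Pool.Agent.TH344.DS.Dv
    rw [dif_pos (hD1 D), Set.Finite.coe_toFinset]
  rw [FamD_eq, h3, ← Set.ncard_coe_finset]
  exact Set.ncard_le_ncard (Pool.Agent.W307.RS.Cv_sub Pool.Agent.W554.RS.mdl 2 (D / 32) D
    (Nat.mul_div_le D 32)) (hD1 D)

/-- the curve `y² = x³ + A x + B` over `K`, `c = (A, B)` -/
def EK (K : Type) [Field K] (c : ℤ × ℤ) : WeierstrassCurve K := ⟨0, 0, 0, (c.1 : K), (c.2 : K)⟩

/-- `K = ℚ(√d_1, ..., √d_m)` -/
def IsField {m : ℕ} (d : Fin m → ℕ) (K : Type) [Field K] [NumberField K] : Prop :=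
  ∃ x : Fin m → K, (∀ i, x i ^ 2 = (d i : K)) ∧ IntermediateField.adjoin ℚ (Set.range x) = ⊤

/-- The tuples `(q_1 q'_1, ..., q_m q'_m)`, where the `q_i` and `q'_i` are `2 m` distinct primes, all
larger than `N`. -/
def Tuple {m : ℕ} (N : ℕ) (d : Fin m → ℕ) : Prop :=
  ∃ q q' : Fin m → ℕ, (∀ i, d i = q i * q' i) ∧ (∀ i, (q i).Prime ∧ N < q i) ∧
    (∀ i, (q' i).Prime ∧ N < q' i) ∧ Function.Injective q ∧ Function.Injective q' ∧
    ∀ i j, q i ≠ q' j

open Classical in
/-- The curves `E` such that for the field `K = ℚ(√d_1, ..., √d_m)` the groups `E(K) ⊗ ℚ₂` and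
`H¹_f(K, V₂ E)` are zero. -/
def AJIso {m : ℕ} (d : Fin m → ℕ) : Set (ℤ × ℤ) :=
  {c | ∀ (K : Type) [Field K] [NumberField K], IsField d K →
    (∀ x : TensorProduct ℤ (EK K c).toAffine.Point ℚ_[2], x = 0) ∧ ∀ x : H1f (EK K c), x = 0}

lemma gen_of {m : ℕ} {d : Fin m → ℕ} {K : Type} [Field K] [NumberField K] (h : IsField d K) :
    Pool.Agent.TH841.NF.Gen K (fun j => (d j : ℤ)) := by
  obtain ⟨x, hx, hg⟩ := h
  exact ⟨x, fun i => by rw [hx i, Int.cast_natCast], hg⟩

lemma tup_pos {m N : ℕ} {d : Fin m → ℕ} (h : Tuple N d) (i : Fin m) : (d i : ℤ) ≠ 0 := by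
  obtain ⟨q, q', h1, h2, h3, -⟩ := h
  rw [h1 i]
  exact_mod_cast mul_ne_zero (h2 i).1.ne_zero (h3 i).1.ne_zero

lemma map_eq (K : Type) [Field K] [NumberField K] (c : ℤ × ℤ) :
    (⟨0, 0, 0, (c.1 : ℚ), (c.2 : ℚ)⟩ : WeierstrassCurve ℚ).map (algebraMap ℚ K) = EK K c := by
  apply WeierstrassCurve.ext
  · exact map_zero _
  · exact map_zero _
  · exact map_zero _
  · exact map_intCast _ _
  · exact map_intCast _ _

open Classical in
lemma good_of {m N : ℕ} {d : Fin m → ℕ} (hd : Tuple N d) {c : ℤ × ℤ}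
    (hD : 4 * c.1 ^ 3 + 27 * c.2 ^ 2 ≠ 0)
    (hT : ∃ f : ZMod 2 × ZMod 2 →+ (E c.1 c.2).toAffine.Point, Function.Injective f)
    (h : Pool.Agent.Y667.QK.TwS (fun j => (d j : ℤ)) c) : c ∈ AJIso d := by
  intro K _ _ hK
  obtain ⟨h1, -, h3⟩ := Pool.Agent.Y667.QK.field_of (tup_pos hd) hD
    (Pool.Agent.W307.RT.tors_iff.2 hT) h K (gen_of hK)
  have hfg : Module.Finite ℤ (EK K c).toAffine.Point := by
    have h2 : (Pool.Agent.W307.RT.Sh c.1 c.2).baseChange K = EK K c := map_eq K c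
    rw [← h2]
    exact Pool.Agent.Y667.OG.fin_K K hD (Pool.Agent.W307.RT.tors_iff.2 hT)
  have h4 : Finite (EK K c).toAffine.Point :=
    Pool.Agent.Y667.BK.finite_of_rk (Module.Finite.iff_addGroup_fg.1 hfg) h1
  exact ⟨Pool.Agent.Y667.BK.tensor_zero, Pool.Agent.Y667.BKK.h1f_zero h4 m h3⟩

lemma deg_of {m N : ℕ} {d : Fin m → ℕ} (hd : Tuple N d) (K : Type) [Field K] [NumberField K]
    (hK : IsField d K) : Module.finrank ℚ K = 2 ^ m := by
  obtain ⟨q, q', h1, h2, h3, h4, h5, h6⟩ := hd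
  refine Pool.Agent.Y388.QK.DEG m q q' (fun j => (h2 j).1) (fun j => (h3 j).1) h4 h5 h6 K ?_
  have := gen_of hK
  have e : (fun j => ((q j * q' j : ℕ) : ℤ)) = fun j => (d j : ℤ) := by
    funext j
    rw [h1 j]
  rw [e]
  exact this

/-- one of finitely many -/
lemma pack {ι : Type} (L : Finset ι) (p : ι → ℕ → ℝ) (δ : ℝ)
    (h : ∀ᶠ Z : ℕ in atTop, ∃ d ∈ L, δ ≤ p d Z) : ∃ d ∈ L, ∃ᶠ Z : ℕ in atTop, δ ≤ p d Z := by
  by_contra hcon
  push Not at hcon
  have h1 : ∀ᶠ Z : ℕ in atTop, ∀ d ∈ L, ¬ δ ≤ p d Z := by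
    rw [Filter.eventually_all_finset]
    intro d hd
    exact (hcon d hd).mono fun Z hZ => not_le.2 hZ
  obtain ⟨Z, hZ1, hZ2⟩ := (h.and h1).exists
  obtain ⟨d, hd, hle⟩ := hZ1
  exact hZ2 d hd hle

/-- **Theorem.** Order the elliptic curves over `ℚ` with full rational 2-torsion by the naive height
or by the absolute value of the minimal discriminant. For both orderings there are finitely many
curves of size at most `Z`, their number tends to infinity with `Z`, and for all `m`, `N` there are a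
finite list `L` of tuples of products of two primes larger than `N`, the `2 m` primes distinct, so
that the fields `K = ℚ(√d_1, ..., √d_m)` have degree `2 ^ m`, and `δ > 0` such that for all large `Z`
for some `d` in `L` at least a proportion `δ` of the curves of size at most `Z` has
`E(K) ⊗ ℚ₂ = 0` and `H¹_f(K, V₂ E) = 0`; and one `d` in `L` has this property for arbitrarily
large `Z`. -/
theorem result : ∀ I : ℤ × ℤ → ℕ → Prop, I = HeightLe ∨ I = DiscLe →
    (∀ Z : ℕ, (Fam I Z).Finite) ∧ Tendsto (fun Z : ℕ => (Fam I Z).ncard) atTop atTop ∧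
    ∀ m N : ℕ, ∃ L : Finset (Fin m → ℕ), (∀ d ∈ L, Tuple N d ∧
        ∀ (K : Type) [Field K] [NumberField K], IsField d K → Module.finrank ℚ K = 2 ^ m) ∧
      ∃ δ : ℝ, 0 < δ ∧ (∀ᶠ Z : ℕ in atTop, ∃ d ∈ L, δ ≤ proportion I (AJIso d) Z) ∧
        ∃ d ∈ L, ∃ᶠ Z : ℕ in atTop, δ ≤ proportion I (AJIso d) Z := by
  classical
  obtain ⟨β, hfl⟩ := Pool.Agent.Y388.QK.FLIP 17 (by norm_num) (by norm_num)
  intro I hI
  rcases hI with rfl | rfl
  · refine ⟨fun Z => ?_, tendstoH, ?_⟩
    · rw [FamH_eq]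
      exact finite_toSet _
    · intro m N
      obtain ⟨L, hL, δ, hδ, H0, h⟩ := Pool.Agent.Y667.QK.main_h Pool.Agent.Y388.QK.PRM hfl m N
      have key : ∀ᶠ Z : ℕ in atTop, ∃ d ∈ L, δ ≤ proportion HeightLe (AJIso d) Z := by
        filter_upwards [eventually_ge_atTop H0, tendstoH.eventually_ge_atTop 1] with H hH hH1
        obtain ⟨d, hd, hle⟩ := h H hH
        refine ⟨d, hd, ?_⟩
        unfold proportion
        rw [le_div_iff₀ (by exact_mod_cast hH1)]
        have e1 : (Fam HeightLe H).ncard = (Pool.Agent.W307.RT.Cv 2 H).card := by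
          rw [FamH_eq, Set.ncard_coe_finset]
        rw [e1]
        refine hle.trans (Nat.cast_le.2 ?_)
        rw [← Set.ncard_coe_finset]
        refine Set.ncard_le_ncard (fun k hk => ?_) (Set.Finite.inter_of_left (by
          rw [FamH_eq]
          exact finite_toSet _) _)
        rw [mem_coe, mem_filter] at hk
        have hkF : k ∈ Fam HeightLe H := by
          rw [FamH_eq, mem_coe]
          exact hk.1
        exact ⟨hkF, good_of (hL d hd) hkF.1 hkF.2.2.1 hk.2⟩
      exact ⟨L, fun d hd => ⟨hL d hd, fun K _ _ hK => deg_of (hL d hd) K hK⟩, δ, hδ, key,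
        pack L (fun d Z => proportion HeightLe (AJIso d) Z) δ key⟩
  · refine ⟨fun Z => ?_, tendstoD, ?_⟩
    · rw [FamD_eq]
      exact finite_toSet _
    · intro m N
      obtain ⟨L, hL, δ, hδ, H0, h⟩ := Pool.Agent.Y667.QK.main_d Pool.Agent.Y388.QK.PRM hfl m N
      have key : ∀ᶠ Z : ℕ in atTop, ∃ d ∈ L, δ ≤ proportion DiscLe (AJIso d) Z := by
        filter_upwards [eventually_ge_atTop H0, tendstoD.eventually_ge_atTop 1] with H hH hH1
        obtain ⟨d, hd, hle⟩ := h H hH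
        refine ⟨d, hd, ?_⟩
        unfold proportion
        rw [le_div_iff₀ (by exact_mod_cast hH1)]
        have e1 : (Fam DiscLe H).ncard = (Pool.Agent.TH344.DS.Dv H).card := by
          rw [FamD_eq, Set.ncard_coe_finset]
        rw [e1]
        refine hle.trans (Nat.cast_le.2 ?_)
        rw [← Set.ncard_coe_finset]
        refine Set.ncard_le_ncard (fun k hk => ?_) (Set.Finite.inter_of_left (by
          rw [FamD_eq]
          exact finite_toSet _) _)
        rw [mem_coe, mem_filter] at hk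
        have hkF : k ∈ Fam DiscLe H := by
          rw [FamD_eq, mem_coe]
          exact hk.1
        exact ⟨hkF, good_of (hL d hd) hkF.1 hkF.2.2.1 hk.2⟩
      exact ⟨L, fun d hd => ⟨hL d hd, fun K _ _ hK => deg_of (hL d hd) K hK⟩, δ, hδ, key,
        pack L (fun d Z => proportion DiscLe (AJIso d) Z) δ key⟩

end Pool.Agent.Results.MP_787500_nt.BlochKatoMultiquadratic
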