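import Pool.Agent.Y803.SEL.Main
import Pool.Agent.Y803.SEL.Bridge

/-! Bloch-Kato Selmer groups in `p`-extensions of number fields. -/

set_option autoImplicit false

namespace Pool.Agent.Results.MP_787500_nt.SelmerTowers

open Pool.Agent.Y800 Pool.Agent.Y803.SEL.Out

/-- Let `F` be a number field, `T = ℤ_p ^ n` a continuous representation `ρ` of `G_F` unramified at
all places not dividing `N₀`, `V = T ⊗ ℚ_p`, `M = T / p T`, and suppose that `M ^ {G_F} = 0`. Let `𝓛`
be a family of local conditions for `V` at places dividing `N₀`. Then the residual Selmer group is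
finite; for every Galois extension `K` of `F` of degree `p ^ s` which is completely split at the
places where a condition is imposed and at every place prime to `N₀` is unramified or such that
the decomposition group has no nonzero invariants in `M`, the Selmer group of `V` over `K` has
dimension at most `[K : F]` times that of the residual Selmer group over `F`; and, if some element of
`G_ℚ` which fixes the `p`-th roots of unity has all its conjugates in `G_F` and none of them fixes a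
nonzero vector of `M`, then this bound holds for every compositum of `F` with a field of exponent
dividing `p ^ m` inside the field of the `f`-th roots of unity, `f` any product of distinct primes
from an infinite set of primes which are `1` modulo `p ^ m`. -/
theorem result (p : ℕ) [Fact p.Prime] (n : ℕ) (F : Ext ℚ) (hF : degree F ≠ 0)
    (ρ : GalF F →* GL (Fin n) ℤ_[p]) (hρ : Continuous ρ) (N₀ : ℕ) (hN₀ : N₀ ≠ 0)
    (hur : ∀ P : Ideal ZBar, P.IsMaximal → (N₀ : ZBar) ∉ P →
      ∀ τ : GalF F, InInertia P (incl F τ) → ρ τ = 1)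
    (hM : ∀ x : Fin n → ZMod p, (∀ g : GalF F, actM (ρ g) x = x) → x = 0)
    (𝓛 : LocCond (incl F) ρ N₀) :
    FiniteDimensional (ZMod p) (ResSelmer 𝓛) ∧
    (∀ (K : Ext ℚ) (s : ℕ), F ≤ K → (∀ σ : GQ, (∀ x ∈ F, σ x = x) → ∀ x ∈ K, σ x ∈ K) →
      degree K = p ^ s * degree F → Good 𝓛 (galIn F K) →
      FiniteDimensional ℚ_[p] (Selmer 𝓛 (galIn F K)) ∧
      Module.finrank ℚ_[p] (Selmer 𝓛 (galIn F K)) ≤
        p ^ s * Module.finrank (ZMod p) (ResSelmer 𝓛)) ∧
    (∀ σ : GQ, (∀ z : AlgebraicClosure ℚ, z ^ p = 1 → σ z = z) →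
      (∀ g : GQ, ∃ h : GalF F, incl F h = g * σ * g⁻¹ ∧
        ∀ x : Fin n → ZMod p, actM (ρ h) x = x → x = 0) →
      ∀ m : ℕ, ∃ Q : Set ℕ, Q.Infinite ∧ (∀ q ∈ Q, q.Prime ∧ q ≡ 1 [MOD p ^ m]) ∧
        ∀ T : Finset ℕ, (∀ q ∈ T, q ∈ Q) → ∀ K₀ : Ext ℚ, K₀ ≤ cyclo ℚ (∏ q ∈ T, q) →
          (∀ g : GQ, ∀ x ∈ K₀, (g ^ p ^ m) x = x) →
          ∃ s : ℕ, degree (F ⊔ K₀) = p ^ s * degree F ∧
            FiniteDimensional ℚ_[p] (Selmer 𝓛 (galIn F (F ⊔ K₀))) ∧
            Module.finrank ℚ_[p] (Selmer 𝓛 (galIn F (F ⊔ K₀))) ≤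
              p ^ s * Module.finrank (ZMod p) (ResSelmer 𝓛)) := by
  obtain ⟨h1, h2, h3⟩ := Pool.Agent.Y803.SEL.main_fields p n F hF ρ hρ N₀ hN₀ hur hM
    (Pool.Agent.Y803.SEL.Bridge.old 𝓛)
  refine ⟨h1, h2, ?_⟩
  intro σ hσ hσ' m
  refine h3 σ hσ ?_ m
  intro g
  obtain ⟨h, he, hx⟩ := hσ' g
  have hmem : g * σ * g⁻¹ ∈ Pool.Agent.Y803.SEL.absGal F := by
    rw [← he]
    exact h.2
  refine ⟨hmem, ?_⟩
  have e : (⟨g * σ * g⁻¹, hmem⟩ : Pool.Agent.Y803.SEL.absGal F) = h := Subtype.ext he.symm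
  rw [e]
  exact hx

end Pool.Agent.Results.MP_787500_nt.SelmerTowers
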